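import Mathlib

set_option autoImplicit false

/-!
Double covers of complete bipartite graphs and three-graphs: general lemmas.
-/

namespace Run7.h637.ThreeGraph

open Finset

section General

variable {U : Type*} [Fintype U] [DecidableEq U] (sd : U → Bool) (w : U → U → ZMod 2)

/-- The part of `e` on side `t`. -/
def part (t : Bool) (e : Finset U) : Finset U := e.filter (fun x => sd x = t)

/-- The holonomy of the set `e`. -/
def hol (e : Finset U) : ZMod 2 := ∑ x ∈ part sd false e, ∑ y ∈ part sd true e, w x y

/-- The hyperedges defined by the side function and the weight. -/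
def hyp : Finset (Finset U) :=
  univ.filter (fun e => (part sd false e).card = 2 ∧ (part sd true e).card = 2 ∧ hol sd w e = 1)

variable {sd w}

omit [Fintype U] [DecidableEq U] in
lemma part_disj (e : Finset U) : Disjoint (part sd false e) (part sd true e) := by
  rw [Finset.disjoint_left]
  intro x hx hy
  simp only [part, mem_filter] at hx hy
  rw [hx.2] at hy
  simp at hy

omit [Fintype U] in
lemma part_union (e : Finset U) : part sd false e ∪ part sd true e = e := by
  ext x
  simp only [part, mem_union, mem_filter]
  cases sd x <;> simp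

omit [Fintype U] in
lemma card_parts (e : Finset U) : (part sd false e).card + (part sd true e).card = e.card := by
  rw [← card_union_of_disjoint (part_disj e), part_union]

omit [Fintype U] in
lemma card_part_not (t : Bool) (e : Finset U) :
    (part sd t e).card + (part sd (!t) e).card = e.card := by
  have := card_parts (sd := sd) e
  cases t <;> simp <;> omega

omit [DecidableEq U] in
lemma mem_hyp (e : Finset U) : e ∈ hyp sd w ↔
    (part sd false e).card = 2 ∧ (part sd true e).card = 2 ∧ hol sd w e = 1 := by
  simp [hyp]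

lemma hyp_card {e : Finset U} (he : e ∈ hyp sd w) : e.card = 4 := by
  rw [mem_hyp] at he
  rw [← card_parts (sd := sd) e]
  omega

lemma hyp_class {e : Finset U} (he : e ∈ hyp sd w) (v : U) :
    (e.filter (fun x => sd v = sd x)).card = 2 := by
  rw [mem_hyp] at he
  have h : e.filter (fun x => sd v = sd x) = part sd (sd v) e := by
    ext x; simp only [part, mem_filter]; constructor <;> rintro ⟨h1, h2⟩ <;> exact ⟨h1, h2.symm⟩
  rw [h]
  cases sd v
  · exact he.1
  · exact he.2.1

omit [Fintype U] in
lemma part_insert_of_eq {t : Bool} {x : U} {e : Finset U} (h : sd x = t) :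
    part sd t (insert x e) = insert x (part sd t e) := by
  simp [part, filter_insert, h]

omit [Fintype U] in
lemma part_insert_of_ne {t : Bool} {x : U} {e : Finset U} (h : sd x ≠ t) :
    part sd t (insert x e) = part sd t e := by
  simp [part, filter_insert, h]

/-- zmod two: everything is its own negative -/
lemma z2 (a : ZMod 2) : a + a = 0 := CharTwo.add_self_eq_zero a

lemma z2_cases (a : ZMod 2) : a = 0 ∨ a = 1 := by
  fin_cases a
  · left; rfl
  · right; rfl

/-- A function on `ZMod 2` is the indicator of being `1`. -/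
lemma z2_ite (a : ZMod 2) : (if a = 1 then (1 : ZMod 2) else 0) = a := by
  rcases z2_cases a with h | h <;> simp [h]

omit [Fintype U] [DecidableEq U] in
lemma hol_eq (hw : ∀ x y, w x y = w y x) (t : Bool) (e : Finset U) :
    hol sd w e = ∑ x ∈ part sd t e, ∑ y ∈ part sd (!t) e, w x y := by
  cases t
  · rfl
  · simp only [hol, Bool.not_true]
    rw [sum_comm]
    exact sum_congr rfl fun x _ => sum_congr rfl fun y _ => hw _ _

omit [Fintype U] in
lemma part_erase_of_eq {t : Bool} {x : U} {e : Finset U} :
    part sd t (e.erase x) = (part sd t e).erase x := by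
  ext y
  simp only [part, mem_filter, mem_erase]
  tauto

omit [Fintype U] in
lemma part_erase_of_ne {t : Bool} {x : U} {e : Finset U} (h : sd x ≠ t) :
    part sd t (e.erase x) = part sd t e := by
  rw [part_erase_of_eq]
  apply erase_eq_of_notMem
  simp [part, h]

/-- The number of four-subsets of a five-set in a family of four-sets, as number of points. -/
lemma card_four {U : Type*} [DecidableEq U] (H : Finset (Finset U)) (h4 : ∀ e ∈ H, e.card = 4)
    (S : Finset U) (hS : S.card = 5) :
    (H.filter (fun e => e ⊆ S)).card = (S.filter (fun v => S.erase v ∈ H)).card := by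
  symm
  apply card_bij (fun v _ => S.erase v)
  · intro v hv
    rw [mem_filter] at hv ⊢
    exact ⟨hv.2, erase_subset _ _⟩
  · intro a ha b hb hab
    rw [mem_filter] at ha hb
    exact Finset.erase_injOn S ha.1 hb.1 hab
  · intro e he
    rw [mem_filter] at he
    have hc : (S \ e).card = 1 := by
      rw [card_sdiff_of_subset he.2, hS, h4 e he.1]
    rw [card_eq_one] at hc
    obtain ⟨v, hv⟩ := hc
    have hvS : v ∈ S ∧ v ∉ e := by
      have : v ∈ S \ e := by rw [hv]; simp
      rwa [mem_sdiff] at this
    have hee : S.erase v = e := by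
      rw [← sdiff_singleton_eq_erase, ← hv]
      exact Finset.sdiff_sdiff_eq_self he.2
    refine ⟨v, ?_, hee⟩
    rw [mem_filter, hee]
    exact ⟨hvS.1, he.1⟩

lemma even_five (hw : ∀ x y, w x y = w y x) (S : Finset U) (hS : S.card = 5)
    (h3 : ∀ v ∈ S, (S.filter (fun x => sd v = sd x)).card ≤ 3) :
    Even ((hyp sd w).filter (fun e => e ⊆ S)).card := by
  rw [card_four _ (fun e he => hyp_card he) S hS]
  have h3' : ∀ t : Bool, (part sd t S).card ≤ 3 := by
    intro t
    rcases (part sd t S).eq_empty_or_nonempty with h | ⟨v, hv⟩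
    · simp [h]
    · have hv' := hv
      simp only [part, mem_filter] at hv'
      have := h3 v hv'.1
      rw [hv'.2] at this
      have h : S.filter (fun x => t = sd x) = part sd t S := by
        ext x; simp only [part, mem_filter]; constructor <;> rintro ⟨h1, h2⟩ <;> exact ⟨h1, h2.symm⟩
      rwa [h] at this
  have hsum := card_parts (sd := sd) S
  have hf := h3' false
  have ht := h3' true
  -- a side with three elements
  obtain ⟨t, h3t, h2t⟩ : ∃ t : Bool, (part sd t S).card = 3 ∧ (part sd (!t) S).card = 2 := by
    by_cases h : (part sd false S).card = 3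
    · exact ⟨false, h, by simp; omega⟩
    · exact ⟨true, by omega, by simp; omega⟩
  rw [← ZMod.natCast_eq_zero_iff_even, ← sum_boole]
  have key : ∀ v ∈ S, (if S.erase v ∈ hyp sd w then (1 : ZMod 2) else 0) =
      if sd v = t then (hol sd w S + ∑ y ∈ part sd (!t) S, w v y) else 0 := by
    intro v hv
    by_cases hvt : sd v = t
    · rw [if_pos hvt, ← z2_ite (hol sd w S + ∑ y ∈ part sd (!t) S, w v y)]
      congr 1
      rw [mem_hyp, eq_iff_iff]
      have hvp : v ∈ part sd t S := by simp [part, hv, hvt]
      have hn : sd v ≠ !t := by rw [hvt]; cases t <;> simp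
      have hc1 : (part sd t (S.erase v)).card = 2 := by
        rw [part_erase_of_eq, card_erase_of_mem hvp, h3t]
      have hc2 : (part sd (!t) (S.erase v)).card = 2 := by
        rw [part_erase_of_ne hn, h2t]
      have hh : hol sd w (S.erase v) = hol sd w S + ∑ y ∈ part sd (!t) S, w v y := by
        rw [hol_eq hw t (S.erase v), hol_eq hw t S, part_erase_of_eq, part_erase_of_ne hn,
          ← add_sum_erase _ _ hvp]
        have := z2 (∑ y ∈ part sd (!t) S, w v y)
        rw [add_comm (∑ y ∈ part sd (!t) S, w v y), add_assoc, this, add_zero]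
      have hcc : (part sd false (S.erase v)).card = 2 ∧ (part sd true (S.erase v)).card = 2 := by
        cases t
        · exact ⟨hc1, hc2⟩
        · exact ⟨hc2, hc1⟩
      rw [hh]
      tauto
    · rw [if_neg hvt, if_neg]
      intro hmem
      rw [mem_hyp] at hmem
      have hc : (part sd t (S.erase v)).card = 3 := by
        rw [part_erase_of_ne hvt, h3t]
      cases t <;> omega
  rw [sum_congr rfl key, ← sum_filter]
  change ∑ v ∈ part sd t S, _ = _
  rw [sum_add_distrib, sum_const, h3t, ← hol_eq hw t S]
  have h1 := z2 (hol sd w S)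
  rw [show (3 : ℕ) • hol sd w S = hol sd w S + hol sd w S + hol sd w S by
    rw [succ_nsmul, two_nsmul], h1, zero_add, h1]

/-- Maps that preserve the weight up to switching preserve the hyperedges. -/
lemma hyp_map (hw : ∀ x y, w x y = w y x) (σ : U ≃ U) (δ : Bool)
    (hσ : ∀ x, sd (σ x) = xor (sd x) δ) (α β : U → ZMod 2)
    (hsw : ∀ x y, sd x = false → sd y = true → w (σ x) (σ y) = w x y + (α x + β y))
    (e : Finset U) : e ∈ hyp sd w ↔ e.map σ.toEmbedding ∈ hyp sd w := by
  have hpart : ∀ t : Bool, part sd t (e.map σ.toEmbedding) =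
      (part sd (xor t δ) e).map σ.toEmbedding := by
    intro t
    ext x
    simp only [part, mem_filter, mem_map]
    constructor
    · rintro ⟨⟨y, hy, rfl⟩, hx⟩
      refine ⟨y, ⟨hy, ?_⟩, rfl⟩
      have := hσ y
      simp only [Equiv.coe_toEmbedding] at hx
      rw [this] at hx
      rw [← hx]
      cases sd y <;> cases δ <;> rfl
    · rintro ⟨y, ⟨hy, hx⟩, rfl⟩
      refine ⟨⟨y, hy, rfl⟩, ?_⟩
      have := hσ y
      simp only [Equiv.coe_toEmbedding]
      rw [this, hx]
      cases t <;> cases δ <;> rfl
  have hcard : ((part sd false e).card = 2 ∧ (part sd true e).card = 2) ↔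
      ((part sd false (e.map σ.toEmbedding)).card = 2 ∧
        (part sd true (e.map σ.toEmbedding)).card = 2) := by
    rw [hpart, hpart, card_map, card_map]
    cases δ
    · simp
    · simp [and_comm]
  rw [mem_hyp, mem_hyp, ← and_assoc, ← and_assoc, ← hcard]
  refine and_congr_right ?_
  rintro ⟨h0, h1⟩
  have hhol : hol sd w (e.map σ.toEmbedding) = hol sd w e := by
    rw [hol_eq hw (xor false δ) (e.map σ.toEmbedding), hpart, hpart, sum_map]
    have e1 : xor (xor false δ) δ = false := by cases δ <;> rfl
    have e2 : xor (!(xor false δ)) δ = true := by cases δ <;> rfl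
    rw [e1, e2]
    simp only [sum_map, Equiv.coe_toEmbedding]
    have : ∀ x ∈ part sd false e, ∑ y ∈ part sd true e, w (σ x) (σ y) =
        (∑ y ∈ part sd true e, w x y) + ∑ y ∈ part sd true e, β y := by
      intro x hx
      have hx' : sd x = false := by simp only [part, mem_filter] at hx; exact hx.2
      have : ∀ y ∈ part sd true e, w (σ x) (σ y) = w x y + (α x + β y) := by
        intro y hy
        have hy' : sd y = true := by simp only [part, mem_filter] at hy; exact hy.2
        exact hsw x y hx' hy'
      rw [sum_congr rfl this, sum_add_distrib, sum_add_distrib, sum_const, h1, two_nsmul, z2,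
        zero_add]
    rw [sum_congr rfl this, sum_add_distrib, sum_const, h0, two_nsmul, z2, add_zero]
    rfl
  rw [hhol]

end General

section Weight

variable {V : Type*} [DecidableEq V] (s : V → Bool) (H : Finset (Finset V))

/-- Indicator of membership in `H` with values in `ZMod 2`. -/
def ind (e : Finset V) : ZMod 2 := if e ∈ H then 1 else 0

variable {s H}

lemma ind_eq_one (e : Finset V) : ind H e = 1 ↔ e ∈ H := by
  unfold ind
  split_ifs with h <;> simp [h]

lemma card_le_three_of_eq {a b c : V} : ({a, b, c} : Finset V).card ≤ 3 := card_le_three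

lemma coc (h2 : ∀ e ∈ H, (part s false e).card = 2 ∧ (part s true e).card = 2)
    (h5 : ∀ S : Finset V, S.card = 5 → (∀ v ∈ S, (S.filter (fun x => s v = s x)).card ≤ 3) →
      Even (H.filter (fun e => e ⊆ S)).card)
    (t : Bool) (a a' a'' b b' : V) (ha : s a = t) (ha' : s a' = t) (ha'' : s a'' = t)
    (hb : s b = !t) (hb' : s b' = !t) :
    ind H {a, a', b, b'} + ind H {a', a'', b, b'} + ind H {a, a'', b, b'} = 0 := by
  have h4 : ∀ e ∈ H, e.card = 4 := by
    intro e he
    have := h2 e he
    rw [← card_parts (sd := s) e, this.1, this.2]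
  have hzero : ∀ e : Finset V, e.card ≤ 3 → ind H e = 0 := by
    intro e he
    unfold ind
    rw [if_neg]
    intro h
    have := h4 e h
    omega
  by_cases hbb : b = b'
  · subst hbb
    rw [hzero, hzero, hzero]
    · simp
    all_goals
      rw [show ∀ x y : V, ({x, y, b, b} : Finset V) = {x, y, b} by intro x y; simp]
      exact card_le_three
  by_cases h1 : a = a'
  · subst h1
    rw [hzero {a, a, b, b'}, zero_add, z2]
    rw [show ({a, a, b, b'} : Finset V) = {a, b, b'} by simp]
    exact card_le_three
  by_cases h1' : a' = a''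
  · subst h1'
    rw [hzero {a', a', b, b'}, add_zero, z2]
    rw [show ({a', a', b, b'} : Finset V) = {a', b, b'} by simp]
    exact card_le_three
  by_cases h1'' : a = a''
  · subst h1''
    rw [hzero {a, a, b, b'}, add_zero, Finset.insert_comm a' a, z2]
    rw [show ({a, a, b, b'} : Finset V) = {a, b, b'} by simp]
    exact card_le_three
  have hab : ∀ x y : V, s x = t → s y = !t → x ≠ y := by
    intro x y hx hy hxy
    rw [hxy, hy] at hx
    cases t <;> simp at hx
  have n1 := hab a b ha hb
  have n2 := hab a b' ha hb'
  have n3 := hab a' b ha' hb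
  have n4 := hab a' b' ha' hb'
  have n5 := hab a'' b ha'' hb
  have n6 := hab a'' b' ha'' hb'
  have hS : ({a, a', a'', b, b'} : Finset V).card = 5 := by
    rw [card_insert_of_notMem, card_insert_of_notMem, card_insert_of_notMem,
      card_insert_of_notMem, card_singleton]
    all_goals simp [*]
  have htt : (!t) ≠ t := by cases t <;> simp
  have hpt : ({a, a', a'', b, b'} : Finset V).filter (fun x => s x = t) = {a, a', a''} := by
    ext x
    simp only [mem_filter, mem_insert, mem_singleton]
    constructor
    · rintro ⟨h | h | h | h | h, hx⟩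
      · tauto
      · tauto
      · tauto
      · rw [h, hb] at hx; exact absurd hx htt
      · rw [h, hb'] at hx; exact absurd hx htt
    · rintro (h | h | h) <;> subst h <;> tauto
  have hpf : ({a, a', a'', b, b'} : Finset V).filter (fun x => s x = !t) = {b, b'} := by
    ext x
    simp only [mem_filter, mem_insert, mem_singleton]
    constructor
    · rintro ⟨h | h | h | h | h, hx⟩
      · rw [h, ha] at hx; exact absurd hx.symm htt
      · rw [h, ha'] at hx; exact absurd hx.symm htt
      · rw [h, ha''] at hx; exact absurd hx.symm htt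
      · tauto
      · tauto
    · rintro (h | h) <;> subst h <;> tauto
  have h3 : ∀ v ∈ ({a, a', a'', b, b'} : Finset V),
      (({a, a', a'', b, b'} : Finset V).filter (fun x => s v = s x)).card ≤ 3 := by
    intro v _
    have hcomm : ({a, a', a'', b, b'} : Finset V).filter (fun x => s v = s x) =
        ({a, a', a'', b, b'} : Finset V).filter (fun x => s x = s v) := by
      apply filter_congr; intro x _; exact eq_comm
    rw [hcomm]
    have : s v = t ∨ s v = !t := by cases s v <;> cases t <;> simp
    rcases this with h | h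
    · rw [h, hpt]; exact card_le_three
    · rw [h, hpf]; exact card_le_two.trans (by norm_num)
  have heven := h5 _ hS h3
  rw [card_four H h4 _ hS, ← ZMod.natCast_eq_zero_iff_even, ← sum_boole] at heven
  rw [sum_insert (by simp [*]), sum_insert (by simp [*]), sum_insert (by simp [*]),
    sum_insert (by simp [*]), sum_singleton] at heven
  have e1 : ({a, a', a'', b, b'} : Finset V).erase a = {a', a'', b, b'} := by
    apply erase_insert; simp [*]
  have e2 : ({a, a', a'', b, b'} : Finset V).erase a' = {a, a'', b, b'} := by
    rw [Finset.insert_comm a a']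
    apply erase_insert; simp [*, Ne.symm h1]
  have e3 : ({a, a', a'', b, b'} : Finset V).erase a'' = {a, a', b, b'} := by
    rw [Finset.insert_comm a' a'', Finset.insert_comm a a'']
    apply erase_insert; simp [*, Ne.symm h1', Ne.symm h1'']
  have hno : ∀ v : V, s v = !t → ({a, a', a'', b, b'} : Finset V).erase v ∉ H := by
    intro v hv hmem
    have hc := h2 _ hmem
    have hp : (part s t (({a, a', a'', b, b'} : Finset V).erase v)).card = 3 := by
      rw [part_erase_of_ne (by rw [hv]; exact htt)]
      unfold part
      rw [hpt]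
      exact card_eq_three.mpr ⟨a, a', a'', h1, h1'', h1', rfl⟩
    cases t <;> omega
  rw [e1, e2, e3, if_neg (hno b hb), if_neg (hno b' hb')] at heven
  simp only [add_zero] at heven
  unfold ind
  linear_combination heven

/-- The weight function of a three-graph. -/
lemma exists_weight (h2 : ∀ e ∈ H, (part s false e).card = 2 ∧ (part s true e).card = 2)
    (h5 : ∀ S : Finset V, S.card = 5 → (∀ v ∈ S, (S.filter (fun x => s v = s x)).card ≤ 3) →
      Even (H.filter (fun e => e ⊆ S)).card) :
    ∃ w : V → V → ZMod 2, ∀ a a' b b' : V, s a = false → s a' = false → s b = true →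
      s b' = true → ind H {a, a', b, b'} = w a b + w a b' + w a' b + w a' b' := by
  by_cases hne : (∃ a0, s a0 = false) ∧ (∃ b0, s b0 = true)
  · obtain ⟨⟨a0, ha0⟩, ⟨b0, hb0⟩⟩ := hne
    refine ⟨fun a b => ind H {a0, a, b0, b}, ?_⟩
    intro a a' b b' ha ha' hb hb'
    have c1 := coc h2 h5 false a0 a a' b b' ha0 ha ha' hb hb'
    have d1 := coc h2 h5 true b0 b b' a0 a hb0 hb hb' ha0 ha
    have d2 := coc h2 h5 true b0 b b' a0 a' hb0 hb hb' ha0 ha'
    have sw : ∀ x y z u : V, ({x, y, z, u} : Finset V) = {z, u, x, y} := by
      intro x y z u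
      ext v
      simp only [mem_insert, mem_singleton]
      tauto
    rw [sw b0 b a0 a, sw b b' a0 a, sw b0 b' a0 a] at d1
    rw [sw b0 b a0 a', sw b b' a0 a', sw b0 b' a0 a'] at d2
    beta_reduce
    generalize ind H {a0, a, b0, b} = x1 at *
    generalize ind H {a0, a, b0, b'} = x2 at *
    generalize ind H {a0, a', b0, b} = x3 at *
    generalize ind H {a0, a', b0, b'} = x4 at *
    generalize ind H {a0, a, b, b'} = x5 at *
    generalize ind H {a0, a', b, b'} = x6 at *
    generalize ind H {a, a', b, b'} = x7 at *
    revert x1 x2 x3 x4 x5 x6 x7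
    decide
  · refine ⟨fun _ _ => 0, ?_⟩
    intro a a' b b' ha _ hb _
    exact absurd ⟨⟨a, ha⟩, ⟨b, hb⟩⟩ hne

omit [DecidableEq V] in
lemma mem_iff_map {U : Type*} [Fintype U] [DecidableEq U] [DecidableEq V]
    (h2 : ∀ e ∈ H, (part s false e).card = 2 ∧ (part s true e).card = 2)
    {w : V → V → ZMod 2}
    (hw : ∀ a a' b b' : V, s a = false → s a' = false → s b = true →
      s b' = true → ind H {a, a', b, b'} = w a b + w a b' + w a' b + w a' b')
    {sd : U → Bool} {w' : U → U → ZMod 2} (f : V ↪ U) (hf : ∀ a, sd (f a) = s a)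
    (hf' : ∀ a b, s a = false → s b = true → w' (f a) (f b) = w a b) (e : Finset V) :
    e ∈ H ↔ e.map f ∈ hyp sd w' := by
  have hpart : ∀ t : Bool, part sd t (e.map f) = (part s t e).map f := by
    intro t
    ext x
    simp only [part, mem_filter, mem_map]
    constructor
    · rintro ⟨⟨y, hy, rfl⟩, hx⟩
      exact ⟨y, ⟨hy, by rw [← hx, hf]⟩, rfl⟩
    · rintro ⟨y, ⟨hy, hx⟩, rfl⟩
      exact ⟨⟨y, hy, rfl⟩, by rw [hf, hx]⟩
  rw [mem_hyp, hpart, hpart, card_map, card_map]
  have main : (part s false e).card = 2 → (part s true e).card = 2 →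
      hol sd w' (e.map f) = ind H e := by
    intro h0 h1
    rw [hol, hpart, hpart]
    rw [card_eq_two] at h0 h1
    obtain ⟨a, a', haa, ha⟩ := h0
    obtain ⟨b, b', hbb, hb⟩ := h1
    have ma : a ∈ part s false e := by rw [ha]; simp
    have ma' : a' ∈ part s false e := by rw [ha]; simp
    have mb : b ∈ part s true e := by rw [hb]; simp
    have mb' : b' ∈ part s true e := by rw [hb]; simp
    simp only [part, mem_filter] at ma ma' mb mb'
    have he : e = {a, a', b, b'} := by
      rw [← part_union (sd := s) e, ha, hb]
      ext x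
      simp only [mem_union, mem_insert, mem_singleton]
      tauto
    have hs := hw a a' b b' ma.2 ma'.2 mb.2 mb'.2
    rw [← he] at hs
    rw [hs, ha, hb]
    simp only [sum_map]
    rw [sum_pair haa, sum_pair hbb, sum_pair hbb, hf' a b ma.2 mb.2, hf' a b' ma.2 mb'.2,
      hf' a' b ma'.2 mb.2, hf' a' b' ma'.2 mb'.2]
    ring
  constructor
  · intro he
    obtain ⟨h0, h1⟩ := h2 e he
    refine ⟨h0, h1, ?_⟩
    rw [main h0 h1, ind_eq_one]
    exact he
  · rintro ⟨h0, h1, h⟩
    rw [main h0 h1, ind_eq_one] at h
    exact h

end Weight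

section Ext

variable {V : Type*} [Fintype V] [DecidableEq V] {s : V → Bool} {H : Finset (Finset V)}

/-- The vertices of the big three-graph. -/
abbrev Big (V : Type*) := Bool × V × (V → ZMod 2)

/-- The weight on the big vertex set. -/
def wt (x y : Big V) : ZMod 2 := x.2.2 y.2.1 + y.2.2 x.2.1

omit [Fintype V] [DecidableEq V] in
lemma wt_comm (x y : Big V) : wt x y = wt y x := add_comm _ _

/-- The valuation function of a vertex. -/
def chi (s : V → Bool) (w : V → V → ZMod 2) (a b : V) : ZMod 2 :=
  if s a = false then w a b else 0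

/-- The embedding of the small three-graph. -/
def emb (s : V → Bool) (w : V → V → ZMod 2) (a : V) : Big V := (s a, a, chi s w a)

omit [Fintype V] [DecidableEq V] in
lemma wt_emb {w : V → V → ZMod 2} {a b : V} (ha : s a = false) (hb : s b = true) :
    wt (emb s w a) (emb s w b) = w a b := by
  simp [wt, emb, chi, ha, hb]

lemma exists_perm (S : Finset V) (p : V → V) (hp : Set.InjOn p (S : Set V)) :
    ∃ π : V ≃ V, ∀ x ∈ S, π x = p x := by
  obtain ⟨g, hg⟩ := Finset.exists_equiv_extend_of_card_eq (α := V) (β := V) (t := Finset.univ)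
    (by simp) (s := S) (f := p) (by simp) hp
  exact ⟨g.trans (Equiv.subtypeUnivEquiv (by simp)), fun x hx => by simpa using hg x hx⟩

lemma exists_ext
    {w : V → V → ZMod 2}
    (hw : ∀ a a' b b' : V, s a = false → s a' = false → s b = true →
      s b' = true → ind H {a, a', b, b'} = w a b + w a b' + w a' b + w a' b')
    (S : Finset V) (p : V → V) (hp : Set.InjOn p (S : Set V))
    (hs : ∀ x ∈ S, ∀ y ∈ S, s x = s y ↔ s (p x) = s (p y))
    (hH : ∀ e ⊆ S, e ∈ H ↔ e.image p ∈ H) :
    ∃ (σ : Big V ≃ Big V) (δ : Bool) (α β : V → ZMod 2),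
      (∀ x, (σ x).1 = xor x.1 δ) ∧
      (∀ x y : Big V, x.1 = false → y.1 = true →
        wt (σ x) (σ y) = wt x y + (α x.2.1 + β y.2.1)) ∧
      ∀ x ∈ S, σ (emb s w x) = emb s w (p x) := by
  obtain ⟨δ, hδ⟩ : ∃ δ : Bool, ∀ x ∈ S, s (p x) = xor (s x) δ := by
    rcases S.eq_empty_or_nonempty with h | ⟨x0, hx0⟩
    · exact ⟨false, by simp [h]⟩
    · refine ⟨xor (s x0) (s (p x0)), ?_⟩
      intro x hx
      have := hs x hx x0 hx0
      revert this
      cases s x <;> cases s x0 <;> cases s (p x) <;> cases s (p x0) <;> simp
  obtain ⟨π, hπ⟩ := exists_perm S p hp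
  set D : V → V → ZMod 2 := fun a b =>
    wt (emb s w (p a)) (emb s w (p b)) + wt (emb s w a) (emb s w b) with hD
  have hDsum : ∀ a ∈ S, ∀ a' ∈ S, ∀ b ∈ S, ∀ b' ∈ S, s a = false → s a' = false → s b = true →
      s b' = true → D a b + D a b' + D a' b + D a' b' = 0 := by
    intro a ha a' ha' b hb b' hb' sa sa' sb sb'
    have h1 := hw a a' b b' sa sa' sb sb'
    have himg : ({a, a', b, b'} : Finset V).image p = {p a, p a', p b, p b'} := by
      simp [image_insert]
    have hsub : ({a, a', b, b'} : Finset V) ⊆ S := by
      intro x hx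
      simp only [mem_insert, mem_singleton] at hx
      rcases hx with rfl | rfl | rfl | rfl <;> assumption
    have hind : ind H {p a, p a', p b, p b'} = ind H {a, a', b, b'} := by
      have := hH _ hsub
      rw [himg] at this
      unfold ind
      by_cases h : ({a, a', b, b'} : Finset V) ∈ H
      · rw [if_pos h, if_pos (this.mp h)]
      · rw [if_neg h, if_neg (fun h' => h (this.mpr h'))]
    have h2 : ind H {p a, p a', p b, p b'} =
        wt (emb s w (p a)) (emb s w (p b)) + wt (emb s w (p a)) (emb s w (p b')) +
        wt (emb s w (p a')) (emb s w (p b)) + wt (emb s w (p a')) (emb s w (p b')) := by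
      have pa := hδ a ha
      have pa' := hδ a' ha'
      have pb := hδ b hb
      have pb' := hδ b' hb'
      rw [sa] at pa
      rw [sa'] at pa'
      rw [sb] at pb
      rw [sb'] at pb'
      cases δ
      · simp only [Bool.xor_false] at pa pa' pb pb'
        rw [wt_emb pa pb, wt_emb pa pb', wt_emb pa' pb, wt_emb pa' pb']
        exact hw _ _ _ _ pa pa' pb pb'
      · simp only [Bool.xor_true, Bool.not_false, Bool.not_true] at pa pa' pb pb'
        have sw : ({p a, p a', p b, p b'} : Finset V) = {p b, p b', p a, p a'} := by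
          ext v
          simp only [mem_insert, mem_singleton]
          tauto
        rw [wt_comm (emb s w (p a)) (emb s w (p b)), wt_comm (emb s w (p a)) (emb s w (p b')),
          wt_comm (emb s w (p a')) (emb s w (p b)), wt_comm (emb s w (p a')) (emb s w (p b')),
          wt_emb pb pa, wt_emb pb' pa, wt_emb pb pa', wt_emb pb' pa', sw]
        rw [hw _ _ _ _ pb pb' pa pa']
        ring
    simp only [hD]
    rw [wt_emb sa sb, wt_emb sa sb', wt_emb sa' sb, wt_emb sa' sb']
    have h3 := z2 (ind H {a, a', b, b'})
    linear_combination h3 + hind - h2 - h1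
  -- separate
  obtain ⟨α0, β0, hsep⟩ : ∃ α0 β0 : V → ZMod 2, ∀ a ∈ S, ∀ b ∈ S, s a = false → s b = true →
      D a b = α0 a + β0 b := by
    by_cases hne : (∃ a0 ∈ S, s a0 = false) ∧ (∃ b0 ∈ S, s b0 = true)
    · obtain ⟨⟨a0, ha0, sa0⟩, ⟨b0, hb0, sb0⟩⟩ := hne
      refine ⟨fun a => D a b0, fun b => D a0 b + D a0 b0, ?_⟩
      intro a ha b hb sa sb
      have := hDsum a ha a0 ha0 b hb b0 hb0 sa sa0 sb sb0
      beta_reduce
      generalize D a b = x1 at *
      generalize D a b0 = x2 at *
      generalize D a0 b = x3 at *
      generalize D a0 b0 = x4 at *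
      clear hDsum hD
      revert x1 x2 x3 x4
      decide
    · refine ⟨fun _ => 0, fun _ => 0, ?_⟩
      intro a ha b hb sa sb
      exact absurd ⟨⟨a, ha, sa⟩, ⟨b, hb, sb⟩⟩ hne
  set α : V → ZMod 2 := fun a => if a ∈ S ∧ s a = false then α0 a else 0 with hα
  set β : V → ZMod 2 := fun b => if b ∈ S ∧ s b = true then β0 b else 0 with hβ
  set E : V → V → ZMod 2 := fun x b => chi s w (p x) (π b) + chi s w x b with hE
  set sep : Bool → V → V → ZMod 2 := fun t x b => if t = false then α x + β b else α b + β x
    with hsepdef
  set F : Bool → V → V → ZMod 2 := fun t x b =>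
    if x ∈ S ∧ s x = t then E x b else
      if b ∈ S ∧ s b = !t then E b x + sep t x b else 0 with hF
  have hFF : ∀ a b, F false a b + F true b a = α a + β b := by
    intro a b
    by_cases ha : a ∈ S ∧ s a = false
    · by_cases hb : b ∈ S ∧ s b = true
      · have h1 : F false a b = E a b := by simp only [hF]; rw [if_pos ha]
        have h2 : F true b a = E b a := by simp only [hF]; rw [if_pos hb]
        have h3 : α a = α0 a := by simp only [hα]; rw [if_pos ha]
        have h4 : β b = β0 b := by simp only [hβ]; rw [if_pos hb]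
        rw [h1, h2, h3, h4, ← hsep a ha.1 b hb.1 ha.2 hb.2]
        simp only [hE, hD, wt, emb, hπ a ha.1, hπ b hb.1]
        ring
      · have h1 : F false a b = E a b := by simp only [hF]; rw [if_pos ha]
        have h2 : F true b a = E a b + (α a + β b) := by
          simp only [hF, hsepdef, Bool.not_true]
          rw [if_neg hb, if_pos ha]
          simp
        rw [h1, h2, ← add_assoc, z2, zero_add]
    · by_cases hb : b ∈ S ∧ s b = true
      · have h1 : F false a b = E b a + (α a + β b) := by
          simp only [hF, hsepdef, Bool.not_false]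
          rw [if_neg ha, if_pos hb]
          simp
        have h2 : F true b a = E b a := by simp only [hF]; rw [if_pos hb]
        rw [h1, h2, add_comm (E b a), add_assoc, z2, add_zero]
      · have h1 : F false a b = 0 := by
          simp only [hF, Bool.not_false]; rw [if_neg ha, if_neg hb]
        have h2 : F true b a = 0 := by
          simp only [hF, Bool.not_true]; rw [if_neg hb, if_neg ha]
        have h3 : α a = 0 := by simp only [hα]; rw [if_neg ha]
        have h4 : β b = 0 := by simp only [hβ]; rw [if_neg hb]
        rw [h1, h2, h3, h4]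
  let σ : Big V ≃ Big V :=
    { toFun := fun x => (xor x.1 δ, π x.2.1,
        fun c => x.2.2 (π.symm c) + F x.1 x.2.1 (π.symm c))
      invFun := fun y => (xor y.1 δ, π.symm y.2.1,
        fun b => y.2.2 (π b) + F (xor y.1 δ) (π.symm y.2.1) b)
      left_inv := by
        rintro ⟨t, a, χ⟩
        have e1 : xor (xor t δ) δ = t := by cases t <;> cases δ <;> rfl
        simp only [e1, Equiv.symm_apply_apply]
        congr 2
        funext b
        rw [add_assoc, z2, add_zero]
      right_inv := by
        rintro ⟨t, a, χ⟩
        have e1 : xor (xor t δ) δ = t := by cases t <;> cases δ <;> rfl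
        simp only [e1, Equiv.apply_symm_apply]
        congr 2
        funext b
        rw [add_assoc, z2, add_zero] }
  refine ⟨σ, δ, α, β, fun x => rfl, ?_, ?_⟩
  · rintro ⟨t, a, χ⟩ ⟨u, b, ψ⟩ ht hu
    simp only at ht hu
    subst ht
    subst hu
    change χ (π.symm (π b)) + F false a (π.symm (π b)) +
      (ψ (π.symm (π a)) + F true b (π.symm (π a))) = χ b + ψ a + (α a + β b)
    rw [Equiv.symm_apply_apply, Equiv.symm_apply_apply, ← hFF a b]
    ring
  · intro x hx
    change (xor (s x) δ, π x, fun c => chi s w x (π.symm c) + F (s x) x (π.symm c)) =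
      (s (p x), p x, chi s w (p x))
    rw [← hδ x hx, hπ x hx]
    congr 2
    funext c
    have h1 : F (s x) x (π.symm c) = E x (π.symm c) := by
      simp only [hF]; rw [if_pos ⟨hx, trivial⟩]
    rw [h1]
    simp only [hE]
    rw [Equiv.apply_symm_apply, add_comm (chi s w (p x) c), ← add_assoc, z2, zero_add]

end Ext

end Run7.h637.ThreeGraph
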